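import Pool.Agent.H27.L1.H34.GA.Targets1
import Pool.Agent.H27.L1.H46.GU.MSU
import Pool.Agent.H27.L1.H74.GA.RRA
import Pool.Agent.H27.L1.H91.GA.RRN

/-!
Lemmas for the row MSA of the board gaa: the forms are stable under linear combinations, the
convolution operators are linear, and the mass of the convolution of a cusp form is small
outside `DY` (helper52).
-/

set_option autoImplicit false

namespace Pool.Agent.H27.L1.H52.GA

open MeasureTheory Pool.Agent.H27.L1.H34.GM Pool.Agent.H27.L1.H34.GZ Pool.Agent.H27.L1.H34.GU Pool.Agent.H27.L1.H34.GA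
open Pool.Agent.H27.L1.H46.GU (cs cR_det fz wd fz_eq fn_meas wd_meas prod_meas dom_det zc_det zc_meas)
open scoped ENNReal

/-- the norm as an extended number -/
theorem ms_nU (hVLM : T_VLM) (hMSR : T_MSR) {m N : ℕ} [NeZero N] (hm1 : 1 ≤ m)
    {T : ℕ → Finset (ZM m)} {D : Set (V m)} (hD : DomZ m D) {F : Mat m → VN m N → ℂ}
    {lam : ℕ → ℂ} (hF : HecA m N T F lam) :
    ∫⁻ z in D, wd F z ∂(hm m) = ENNReal.ofReal (nU D F) := by
  obtain ⟨C, K, -, hvl⟩ := hVLM m hm1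
  have hfin : hm m D < ⊤ := lt_of_le_of_lt (hvl D hD).1 ENNReal.ofReal_lt_top
  obtain ⟨BF, hBF⟩ := hF.bdd
  have hfm : IsFiniteMeasure ((hm m).restrict D) := ⟨by rwa [Measure.restrict_apply_univ]⟩
  have hsm : ∀ x, AEStronglyMeasurable (fun z : V m => F (mt z) x) ((hm m).restrict D) := by
    intro x
    have h1 : ContinuousOn (fun z : V m => F (mt z) x) D :=
      (hF.cont x).comp th1_cmt.continuousOn (fun z hz => dom_det hm1 hD hz)
    exact h1.aestronglyMeasurable hD.meas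
  have hint : ∀ x, Integrable (fun z : V m => ‖F (mt z) x‖ ^ 2) ((hm m).restrict D) := by
    intro x
    refine Integrable.of_bound ((hsm x).norm.pow 2) (BF ^ 2) ?_
    rw [ae_restrict_iff' hD.meas]
    refine Filter.Eventually.of_forall fun z hz => ?_
    have h1 := hBF (mt z) x (dom_det hm1 hD hz)
    rw [Real.norm_of_nonneg (by positivity)]
    exact pow_le_pow_left₀ (norm_nonneg _) h1 2
  rw [← Pool.Agent.H27.L1.H91.GA.rrn_mass hMSR hm1 hD hF.cont]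
  unfold nU
  rw [ENNReal.ofReal_sum_of_nonneg (fun x _ => integral_nonneg fun z => by positivity)]
  refine Finset.sum_congr rfl fun x _ => ?_
  exact (ofReal_integral_eq_lintegral_ofReal (hint x)
    (Filter.Eventually.of_forall fun z => by positivity)).symm

/-- linear combinations -/
theorem ms_sub {m N : ℕ} [NeZero N] {T : ℕ → Finset (ZM m)} {F G : Mat m → VN m N → ℂ}
    {lam : ℕ → ℂ} (hF : HecA m N T F lam) (hG : HecA m N T G lam) (c : ℂ) :
    HecA m N T (fun g x => F g x - c * G g x) lam := by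
  obtain ⟨B1, hB1⟩ := hF.bdd
  obtain ⟨B2, hB2⟩ := hG.bdd
  refine ⟨?_, ?_, ?_, ?_, ?_, ?_⟩
  · intro x
    exact (hF.cont x).sub (continuousOn_const.mul (hG.cont x))
  · intro g x hx
    show F g x - c * G g x = 0
    rw [hF.supp g x hx, hG.supp g x hx, mul_zero, sub_zero]
  · intro γ hγ g x hg
    show F (cR γ * g) (ac N γ x) - c * G (cR γ * g) (ac N γ x) = F g x - c * G g x
    rw [hF.auto γ hγ g x hg, hG.auto γ hγ g x hg]
  · intro r hr g x hg
    show F (r • g) x - c * G (r • g) x = F g x - c * G g x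
    rw [hF.scal r hr g x hg, hG.scal r hr g x hg]
  · intro n hn g x hg
    show ∑ α ∈ T n, (F (cR α * g) (ac N α x) - c * G (cR α * g) (ac N α x)) =
      (n : ℂ) ^ (((m : ℂ) - 1) / 2) * lam n * (F g x - c * G g x)
    rw [Finset.sum_sub_distrib, ← Finset.mul_sum, hF.hecke n hn g x hg, hG.hecke n hn g x hg]
    ring
  · refine ⟨B1 + ‖c‖ * B2, fun g x hg => ?_⟩
    show ‖F g x - c * G g x‖ ≤ _
    refine (norm_sub_le _ _).trans (add_le_add (hB1 g x hg) ?_)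
    rw [norm_mul]
    exact mul_le_mul_of_nonneg_left (hB2 g x hg) (norm_nonneg _)

/-- the convolution operators are linear -/
theorem ms_lin (hM : T_MSR) (hH : T_HAR) {m N : ℕ} [NeZero N] (hm1 : 1 ≤ m)
    {T : ℕ → Finset (ZM m)} {F G : Mat m → VN m N → ℂ} {lam : ℕ → ℂ} (hF : HecA m N T F lam)
    (hG : HecA m N T G lam) (c : ℂ) {k : Mat m → ℂ} (hk : Tg m k) {g : Mat m} (hg : g.det ≠ 0)
    (x : VN m N) :
    Rr k 1 (fun g x => F g x - c * G g x) g x = Rr k 1 F g x - c * Rr k 1 G g x := by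
  obtain ⟨B1, hB1⟩ := hF.bdd
  obtain ⟨B2, hB2⟩ := hG.bdd
  have h1 := Pool.Agent.H27.L1.H74.GA.rr_int hM hH hm1 hk one_pos (hF.cont x)
    (fun g hg => hB1 g x hg) hg
  have h2 := Pool.Agent.H27.L1.H74.GA.rr_int hM hH hm1 hk one_pos (hG.cont x)
    (fun g hg => hB2 g x hg) hg
  show ∫ z in Shell m, k (((1 : ℝ)⁻¹ * (aN (mt z))⁻¹) • mt z) *
      (F (g * (mt z)⁻¹) x - c * G (g * (mt z)⁻¹) x) ∂(hm m) =
    ∫ z in Shell m, k (((1 : ℝ)⁻¹ * (aN (mt z))⁻¹) • mt z) * F (g * (mt z)⁻¹) x ∂(hm m) -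
      c * ∫ z in Shell m, k (((1 : ℝ)⁻¹ * (aN (mt z))⁻¹) • mt z) * G (g * (mt z)⁻¹) x ∂(hm m)
  rw [← integral_const_mul, ← integral_sub h1 (h2.const_mul c)]
  refine integral_congr_ae (Filter.Eventually.of_forall fun z => ?_)
  show k (((1 : ℝ)⁻¹ * (aN (mt z))⁻¹) • mt z) *
      (F (g * (mt z)⁻¹) x - c * G (g * (mt z)⁻¹) x) =
    k (((1 : ℝ)⁻¹ * (aN (mt z))⁻¹) • mt z) * F (g * (mt z)⁻¹) x -
      c * (k (((1 : ℝ)⁻¹ * (aN (mt z))⁻¹) • mt z) * G (g * (mt z)⁻¹) x)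
  ring

/-- the pointwise bound where a gap is large -/
theorem ms_point {m q : ℕ} [NeZero q] (hMSR : T_MSR) {T : ℕ → Finset (ZM m)}
    {F G : Mat m → VN m q → ℂ} {lam : ℕ → ℂ} (hF : HecA m q T F lam) (hG : HecA m q T G lam)
    {C κ Y : ℝ} (hC : 0 < C) (hqY : (q : ℝ) ≤ Y) (hκ0 : 0 ≤ κ)
    (hO : ∀ (b n : Mat m) (a : Fin m → ℝ) (k : Mat m), Sgl b n a k →
      ∀ i j : Fin m, (i : ℕ) + 1 = j → (q : ℝ) * a i ≤ a j → ∀ x : VN m q,
      ENNReal.ofReal ‖G b x‖ ≤ ENNReal.ofReal (κ * Y * (a i / a j)) *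
        ∫⁻ z in Zc m C, ENNReal.ofReal ‖F (b * (mt z)⁻¹) x‖ ∂(hm m))
    {D : Set (V m)} {z : V m} (hzD : z ∈ D) (hz : (mt z).det ≠ 0) (hzY : z ∉ DY D Y) :
    wd G z ≤ ENNReal.ofReal κ ^ 2 * hm m (Zc m C) *
      ∫⁻ v in Zc m C, wd F (fun i j => (mt z * (mt v)⁻¹) i j) ∂(hm m) := by
  have h1 : ∃ γ : ZM m, IsUnit γ ∧ ∃ (n : Mat m) (a : Fin m → ℝ) (k : Mat m),
      Sgl (cR γ * mt z) n a k ∧ ∃ i j : Fin m, (i : ℕ) + 1 = j ∧ Y * a i < a j := by
    by_contra hcon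
    apply hzY
    refine ⟨hzD, fun γ hγ n a k hs i j hij => ?_⟩
    by_contra hlt
    exact hcon ⟨γ, hγ, n, a, k, hs, i, j, hij, not_le.1 hlt⟩
  obtain ⟨γ, hγ, n, a, k, hs, i, j, hij, hlt⟩ := h1
  have hai := hs.pos i
  have haj := hs.pos j
  have hqa : (q : ℝ) * a i ≤ a j := (mul_le_mul_of_nonneg_right hqY hai.le).trans hlt.le
  have hκ : κ * Y * (a i / a j) ≤ κ := by
    have : Y * (a i / a j) ≤ 1 := by
      rw [← mul_div_assoc, div_le_one haj]
      exact hlt.le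
    calc κ * Y * (a i / a j) = κ * (Y * (a i / a j)) := by ring
      _ ≤ κ * 1 := mul_le_mul_of_nonneg_left this hκ0
      _ = κ := mul_one κ
  have hb : ∀ x : VN m q, ENNReal.ofReal ‖fz G x z‖ ≤ ENNReal.ofReal κ *
      ∫⁻ v in Zc m C, ENNReal.ofReal ‖fz F x (fun i j => (mt z * (mt v)⁻¹) i j)‖ ∂(hm m) := by
    intro x
    have h2 := hO _ n a k hs i j hij hqa (ac q γ x)
    rw [hG.auto γ hγ (mt z) x hz] at h2
    rw [fz_eq G x hz]
    refine h2.trans (mul_le_mul' (ENNReal.ofReal_le_ofReal hκ) (le_of_eq ?_))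
    refine setLIntegral_congr_fun (zc_meas hMSR m C) fun v hv => ?_
    have hv0 := zc_det hC hv
    have hd : (mt z * (mt v)⁻¹).det ≠ 0 := by
      rw [Matrix.det_mul]
      refine mul_ne_zero hz ?_
      rw [Matrix.det_nonsing_inv, Ring.inverse_eq_inv']
      exact inv_ne_zero hv0
    have h3 : fz F x (fun i j => (mt z * (mt v)⁻¹) i j) = F (mt z * (mt v)⁻¹) x :=
      fz_eq F x (z := fun i j => (mt z * (mt v)⁻¹) i j) hd
    rw [h3, Matrix.mul_assoc, hF.auto γ hγ (mt z * (mt v)⁻¹) x hd]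
  have hmz : ∀ x : VN m q, Measurable fun v : V m =>
      ENNReal.ofReal ‖fz F x (fun i j => (mt z * (mt v)⁻¹) i j)‖ := fun x =>
    (fn_meas hMSR hF.cont x).comp ((prod_meas hMSR m).comp (measurable_const.prodMk measurable_id))
  calc wd G z = ∑ x : VN m q, ENNReal.ofReal ‖fz G x z‖ ^ 2 := rfl
    _ ≤ ∑ x : VN m q, ENNReal.ofReal κ ^ 2 * hm m (Zc m C) *
        ∫⁻ v in Zc m C, ENNReal.ofReal ‖fz F x (fun i j => (mt z * (mt v)⁻¹) i j)‖ ^ 2
          ∂(hm m) := by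
        refine Finset.sum_le_sum fun x _ => ?_
        calc ENNReal.ofReal ‖fz G x z‖ ^ 2 ≤ (ENNReal.ofReal κ * ∫⁻ v in Zc m C,
              ENNReal.ofReal ‖fz F x (fun i j => (mt z * (mt v)⁻¹) i j)‖ ∂(hm m)) ^ 2 :=
              pow_le_pow_left' (hb x) 2
          _ = ENNReal.ofReal κ ^ 2 * (∫⁻ v in Zc m C,
              ENNReal.ofReal ‖fz F x (fun i j => (mt z * (mt v)⁻¹) i j)‖ ∂(hm m)) ^ 2 :=
              mul_pow _ _ _
          _ ≤ ENNReal.ofReal κ ^ 2 * (hm m (Zc m C) * ∫⁻ v in Zc m C,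
              ENNReal.ofReal ‖fz F x (fun i j => (mt z * (mt v)⁻¹) i j)‖ ^ 2 ∂(hm m)) := by
              refine mul_le_mul' le_rfl ?_
              have := cs ((hm m).restrict (Zc m C)) (hmz x)
              rwa [Measure.restrict_apply_univ] at this
          _ = _ := by rw [mul_assoc]
    _ = ENNReal.ofReal κ ^ 2 * hm m (Zc m C) * ∑ x : VN m q,
        ∫⁻ v in Zc m C, ENNReal.ofReal ‖fz F x (fun i j => (mt z * (mt v)⁻¹) i j)‖ ^ 2
          ∂(hm m) := by rw [Finset.mul_sum]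
    _ = _ := by
        congr 1
        unfold wd
        rw [lintegral_finsetSum _ fun x _ => (hmz x).pow_const 2]

/-- the mass outside `DY` -/
theorem ms_mass {m q : ℕ} [NeZero q] (hMSR : T_MSR) (hRTI : T_RTI) (hm1 : 1 ≤ m)
    (hbij : ∀ γ : ZM m, IsUnit γ → Function.Bijective (ac q γ : VN m q → VN m q))
    {T : ℕ → Finset (ZM m)} {F G : Mat m → VN m q → ℂ} {lam : ℕ → ℂ}
    (hF : HecA m q T F lam) (hG : HecA m q T G lam)
    {C κ Y : ℝ} (hC : 0 < C) (hqY : (q : ℝ) ≤ Y) (hκ0 : 0 ≤ κ)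
    (hO : ∀ (b n : Mat m) (a : Fin m → ℝ) (k : Mat m), Sgl b n a k →
      ∀ i j : Fin m, (i : ℕ) + 1 = j → (q : ℝ) * a i ≤ a j → ∀ x : VN m q,
      ENNReal.ofReal ‖G b x‖ ≤ ENNReal.ofReal (κ * Y * (a i / a j)) *
        ∫⁻ z in Zc m C, ENNReal.ofReal ‖F (b * (mt z)⁻¹) x‖ ∂(hm m))
    {D : Set (V m)} (hD : DomZ m D) (hDY : MeasurableSet (DY D Y)) :
    ∫⁻ z in D \ DY D Y, wd G z ∂(hm m) ≤
      (ENNReal.ofReal κ * hm m (Zc m C)) ^ 2 * ∫⁻ z in D, wd F z ∂(hm m) := by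
  have : SigmaFinite (hm m) := (hMSR.1 m).2.2.2.2.1
  have hw := wd_meas hMSR (F := F) hF.cont
  have hw2 : Measurable (Function.uncurry fun (z v : V m) =>
      wd F (fun i j => (mt z * (mt v)⁻¹) i j)) := hw.comp (prod_meas hMSR m)
  have hZ := zc_meas hMSR m C
  calc ∫⁻ z in D \ DY D Y, wd G z ∂(hm m) ≤
      ∫⁻ z in D \ DY D Y, ENNReal.ofReal κ ^ 2 * hm m (Zc m C) *
        ∫⁻ v in Zc m C, wd F (fun i j => (mt z * (mt v)⁻¹) i j) ∂(hm m) ∂(hm m) := by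
        refine setLIntegral_mono' (hD.meas.diff hDY) fun z hz => ?_
        exact ms_point hMSR hF hG hC hqY hκ0 hO hz.1 (dom_det hm1 hD hz.1) hz.2
    _ ≤ ∫⁻ z in D, ENNReal.ofReal κ ^ 2 * hm m (Zc m C) *
        ∫⁻ v in Zc m C, wd F (fun i j => (mt z * (mt v)⁻¹) i j) ∂(hm m) ∂(hm m) :=
        lintegral_mono_set Set.sdiff_subset
    _ = ENNReal.ofReal κ ^ 2 * hm m (Zc m C) * ∫⁻ z in D,
        ∫⁻ v in Zc m C, wd F (fun i j => (mt z * (mt v)⁻¹) i j) ∂(hm m) ∂(hm m) :=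
        lintegral_const_mul _ hw2.lintegral_prod_right'
    _ = ENNReal.ofReal κ ^ 2 * hm m (Zc m C) * ∫⁻ v in Zc m C,
        ∫⁻ z in D, wd F (fun i j => (mt z * (mt v)⁻¹) i j) ∂(hm m) ∂(hm m) := by
        rw [lintegral_lintegral_swap hw2.aemeasurable]
    _ = ENNReal.ofReal κ ^ 2 * hm m (Zc m C) * ∫⁻ v in Zc m C,
        ∫⁻ z in D, wd F z ∂(hm m) ∂(hm m) := by
        congr 1
        refine setLIntegral_congr_fun hZ fun v hv => ?_
        refine hRTI m hm1 D hD (wd F) hw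
          (fun γ hγ z hz => Pool.Agent.H27.L1.H91.GA.rrn_inv hF hγ (hbij γ hγ) hz)
          (fun c hc z hz => Pool.Agent.H27.L1.H91.GA.rrn_scal hF hc hz) (mt v)⁻¹ ?_
        rw [Matrix.det_nonsing_inv, Ring.inverse_eq_inv']
        exact inv_ne_zero (zc_det hC hv)
    _ = _ := by
        rw [setLIntegral_const]
        ring

end Pool.Agent.H27.L1.H52.GA
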